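import Pool.Agent.H31.MV.DescentIdeal

/-!
# Descent right ideals are in general neither self-dual nor trivial source modules

Conventions.  In the problem `S_n` acts on `{1, ..., n}` on the right, so the product `σ τ` there
means: first `σ`, then `τ`; in Mathlib's `Equiv.Perm (Fin n)` the product `τ * σ` means: first `σ`,
then `τ`.  Hence the group algebra of the problem is the opposite of
`MonoidAlgebra F (Equiv.Perm (Fin n))`, the right ideal `Ξ^q F S_n` of the problem is the left ideal
of `MonoidAlgebra F (Equiv.Perm (Fin n))` generated by `Ξ^q`, and a right module over the group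
algebra of the problem is a left module (a representation) here.
-/

set_option autoImplicit false

open Equiv

namespace Pool.Agent.Results.MP_45e6b1_al.DescentIdeal

open Pool.H31.MV.DescentIdeal

/-- Let `F` be a field of prime characteristic `p` and `q` a composition of `n` that has a part
`≥ p` and satisfies `∑ ⌊q_i / p⌋ < ⌊n / p⌋`.  Then `X^q_F` is not self-dual and not a trivial source
module.  Such compositions exist as soon as `n ≥ 2 p`, for example `q = (p, 1, ..., 1)`. -/
theorem result (p : ℕ) (hp : p.Prime) (F : Type*) [Field F] [CharP F p] (n : ℕ) :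
    (∀ q : Composition n, (∃ b ∈ q.blocks, p ≤ b) → (q.blocks.map (fun b => b / p)).sum < n / p →
      ¬ Nonempty ((descentRep F q).Equiv (descentRep F q).dual) ∧
        ¬ IsTrivialSource (descentRep F q)) ∧
    (2 * p ≤ n → ∃ q : Composition n, q.blocks = p :: List.replicate (n - p) 1 ∧
      (∃ b ∈ q.blocks, p ≤ b) ∧ (q.blocks.map (fun b => b / p)).sum < n / p) :=
  Pool.H31.MV.DescentIdeal.result p hp F n

end Pool.Agent.Results.MP_45e6b1_al.DescentIdeal
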